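import Pool.Agent.W2helper55.HLM.Stm

/-!
# Project HLM, pieces A1 and A2
-/

set_option autoImplicit false

universe u

open Cardinal Ordinal Set

namespace Pool.Agent.W2helper17.HLM

open Pool.Agent.H348R6.HLT
open Pool.Agent.W2helper55.HL
open Pool.Agent.W2helper55.HLM

/-! ### The largest limit ordinal below -/

/-- the largest limit ordinal at most `b` (or `0`) -/
noncomputable def lam (b : Ordinal.{u}) : Ordinal.{u} := sSup {e | Order.IsSuccLimit e ∧ e ≤ b}

theorem lam_le (b : Ordinal.{u}) : lam b ≤ b := csSup_le' fun _ he => he.2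

theorem lam_limit {b : Ordinal.{u}} (hb : Order.IsSuccLimit b) : lam b = b :=
  le_antisymm (lam_le b) (le_csSup ⟨b, fun _ he => he.2⟩ ⟨hb, le_rfl⟩)

theorem lam_succ (b : Ordinal.{u}) : lam (b + 1) = lam b := by
  unfold lam
  congr 1
  ext e
  constructor
  · rintro ⟨h1, h2⟩
    refine ⟨h1, Order.lt_add_one_iff.1 (lt_of_le_of_ne h2 ?_)⟩
    rintro rfl
    rw [← Order.succ_eq_add_one] at h1
    exact Order.not_isSuccLimit_succ b h1
  · rintro ⟨h1, h2⟩
    exact ⟨h1, h2.trans (Order.lt_add_one_iff.2 le_rfl).le⟩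

/-! ### Recursion along finite sets -/

/-- A colouring defined by recursion along finite sets of levels. -/
noncomputable def colF (G : Ordinal.{u} → Node.{u} → Node.{u} → Finset Ordinal.{u})
    (w : Ordinal.{u} → Node.{u} → Node.{u} → ℕ) : Ordinal.{u} → Node.{u} → Node.{u} → ℕ :=
  WellFounded.fix (wellFounded_lt (α := Ordinal.{u})) fun β ih s t =>
    max (w β s t) ((G β s t).sup fun d => if h : d < β then ih d h s t else 0)

section

variable (G : Ordinal.{u} → Node.{u} → Node.{u} → Finset Ordinal.{u})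
  (w : Ordinal.{u} → Node.{u} → Node.{u} → ℕ)

theorem colF_eq (β : Ordinal.{u}) (s t : Node.{u}) : colF G w β s t =
    max (w β s t) ((G β s t).sup fun d => if d < β then colF G w d s t else 0) := by
  unfold colF
  rw [WellFounded.fix_eq]
  congr 1

theorem w_le_colF (β : Ordinal.{u}) (s t : Node.{u}) : w β s t ≤ colF G w β s t := by
  rw [colF_eq]
  exact le_max_left _ _

theorem colF_le {β d : Ordinal.{u}} {s t : Node.{u}} (hd : d ∈ G β s t) (h : d < β) :
    colF G w d s t ≤ colF G w β s t := by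
  conv_rhs => rw [colF_eq]
  refine le_trans ?_ (le_max_right _ _)
  have h1 := Finset.le_sup (f := fun d => if d < β then colF G w d s t else 0) hd
  simp only [if_pos h] at h1
  exact h1

end

variable {κ : Cardinal.{u}} {μ : Ordinal.{u} → Cardinal.{u}}
  {S : Ordinal.{u} → Node.{u} → Set Ordinal.{u}}

theorem cut_cut {s : Node.{u}} {b d : Ordinal.{u}} (hb : b ≤ s.len) (hd : d ≤ b) :
    cut (cut s b) d = cut s d :=
  cut_mono (cut_le s b) (by rw [cut_len hb]; exact hd)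

/-- the property of the chosen level -/
def Ok (S : Ordinal.{u} → Node.{u} → Set Ordinal.{u}) (s t : Node.{u}) (α d : Ordinal.{u}) :
    Prop :=
  α < d ∧ (d = α + 1 ∨ (Order.IsSuccLimit d ∧ S α (cut s d) ⊆ S α s ∧ S α (cut t d) ⊆ S α t))

theorem exists_fin (h : Sys κ μ S) {b : Ordinal.{u}} (hb : b < κ.ord) (hl : Order.IsSuccLimit b)
    {s t : Node.{u}} (hs : s ∈ level (fat κ (br μ)) b) (ht : t ∈ level (fat κ (br μ)) b)
    (e : Ordinal.{u}) : e < b → ∃ F : Finset Ordinal.{u}, (∀ d ∈ F, d ≤ e) ∧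
      ∀ α < e, ∃ d ∈ F, Ok S s t α d := by
  classical
  induction e using WellFoundedLT.induction with
  | ind e IH =>
  intro heb
  rcases Ordinal.zero_or_succ_or_isSuccLimit e with rfl | ⟨e', rfl⟩ | hlim
  · refine ⟨∅, fun d hd => absurd hd (Finset.notMem_empty d), fun α hα => ?_⟩
    exact absurd hα (by simp)
  · rw [Order.succ_eq_add_one] at *
    have h1 : e' < e' + 1 := Order.lt_add_one_iff.2 le_rfl
    obtain ⟨F, hF1, hF2⟩ := IH e' h1 (h1.trans heb)
    refine ⟨insert (e' + 1) F, ?_, ?_⟩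
    · intro d hd
      rcases Finset.mem_insert.1 hd with rfl | hd
      · exact le_rfl
      · exact (hF1 d hd).trans h1.le
    · intro α hα
      rcases (Order.lt_add_one_iff.1 hα).eq_or_lt with rfl | hα'
      · exact ⟨α + 1, Finset.mem_insert_self _ _, h1, Or.inl rfl⟩
      · obtain ⟨d, hd, hd'⟩ := hF2 α hα'
        exact ⟨d, Finset.mem_insert_of_mem hd, hd'⟩
  · obtain ⟨a, ha, ha'⟩ := h.good b hb hl e heb hlim s hs
    obtain ⟨a', hb1, hb'⟩ := h.good b hb hl e heb hlim t ht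
    obtain ⟨F, hF1, hF2⟩ := IH (max a a') (max_lt ha hb1) ((max_lt ha hb1).trans heb)
    refine ⟨insert e F, ?_, ?_⟩
    · intro d hd
      rcases Finset.mem_insert.1 hd with rfl | hd
      · exact le_rfl
      · exact (hF1 d hd).trans (max_lt ha hb1).le
    · intro α hα
      rcases lt_or_ge α (max a a') with h2 | h2
      · obtain ⟨d, hd, hd'⟩ := hF2 α h2
        exact ⟨d, Finset.mem_insert_of_mem hd, hd'⟩
      · exact ⟨e, Finset.mem_insert_self _ _, hα, Or.inr ⟨hlim,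
          ha' α ((le_max_left _ _).trans h2) hα, hb' α ((le_max_right _ _).trans h2) hα⟩⟩

theorem exists_F (h : Sys κ μ S) (b : Ordinal.{u}) (s t : Node.{u}) :
    ∃ F : Finset Ordinal.{u}, b < κ.ord → Order.IsSuccLimit b →
      s ∈ level (fat κ (br μ)) b → t ∈ level (fat κ (br μ)) b → (∀ d ∈ F, d < b) ∧
      ∀ α < b, (s.fn α ∈ S α t ∨ t.fn α ∈ S α s) ∨ ∃ d ∈ F, Ok S s t α d := by
  by_cases hall : b < κ.ord ∧ Order.IsSuccLimit b ∧
      s ∈ level (fat κ (br μ)) b ∧ t ∈ level (fat κ (br μ)) b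
  · obtain ⟨hb, hl, hs, ht⟩ := hall
    obtain ⟨m, hm, hm'⟩ := h.cap b hb hl s hs t ht
    obtain ⟨F, hF1, hF2⟩ := exists_fin h hb hl hs ht m hm
    refine ⟨F, fun _ _ _ _ => ⟨fun d hd => (hF1 d hd).trans_lt hm, fun α hα => ?_⟩⟩
    rcases lt_or_ge α m with h1 | h1
    · exact Or.inr (hF2 α h1)
    · exact Or.inl (hm' α h1 hα)
  · exact ⟨∅, fun h1 h2 h3 h4 => absurd ⟨h1, h2, h3, h4⟩ hall⟩

theorem exists_pr : ∃ pr : Ordinal.{u} → Ordinal.{u}, ∀ α, pr (α + 1) = α := by
  have hpr : ∀ β : Ordinal.{u}, ∃ b : Ordinal.{u}, ∀ α, β = α + 1 → b = α := by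
    intro β
    by_cases h1 : ∃ α, β = α + 1
    · obtain ⟨α, rfl⟩ := h1
      exact ⟨α, fun α' h2 => by
        rw [← Order.succ_eq_add_one, ← Order.succ_eq_add_one] at h2
        exact Order.succ_injective h2⟩
    · exact ⟨0, fun α h2 => absurd ⟨α, h2⟩ h1⟩
  choose pr hpr using hpr
  exact ⟨pr, fun α => hpr _ _ rfl⟩

theorem pieceA1 : PieceA1.{u} := by
  classical
  intro κ μ S h wt
  have hF := exists_F h
  choose F hF using hF
  obtain ⟨pr, hpr⟩ := exists_pr
  set G : Ordinal.{u} → Node.{u} → Node.{u} → Finset Ordinal.{u} := fun b s t =>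
    if Order.IsSuccLimit b then F b (cut s b) (cut t b) else {pr b} with hG
  set w : Ordinal.{u} → Node.{u} → Node.{u} → ℕ := fun β s t =>
    max (wt (pr β) (s.fn (pr β))) (wt (pr β) (t.fn (pr β))) with hw
  -- the claim
  have claim : ∀ b : Ordinal.{u}, b < κ.ord → ∀ s ∈ fat κ (br μ), ∀ t ∈ fat κ (br μ),
      b ≤ s.len → b ≤ t.len → ∀ α < b,
      colF G w b s t < max (wt α (s.fn α)) (wt α (t.fn α)) →
      α < lam b ∧ (s.fn α ∈ S α (cut t (lam b)) ∨ t.fn α ∈ S α (cut s (lam b))) := by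
    intro b
    induction b using WellFoundedLT.induction with
    | ind b IH =>
    intro hbκ s hs t ht hsl htl α hα hc
    rcases Ordinal.zero_or_succ_or_isSuccLimit b with rfl | ⟨b', rfl⟩ | hlim
    · exact absurd hα (by simp)
    · rw [Order.succ_eq_add_one] at *
      have h1 : b' < b' + 1 := Order.lt_add_one_iff.2 le_rfl
      have hnl : ¬ Order.IsSuccLimit (b' + 1) := by
        rw [← Order.succ_eq_add_one]
        exact Order.not_isSuccLimit_succ b'
      rcases (Order.lt_add_one_iff.1 hα).eq_or_lt with rfl | hα'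
      · exfalso
        have h2 := w_le_colF G w (α + 1) s t
        simp only [hw, hpr] at h2
        exact absurd (h2.trans_lt hc) (lt_irrefl _)
      · rw [lam_succ]
        have h2 : colF G w b' s t ≤ colF G w (b' + 1) s t := by
          refine colF_le G w ?_ h1
          simp only [hG, if_neg hnl, hpr]
          exact Finset.mem_singleton_self _
        exact IH b' h1 (h1.trans hbκ) s hs t ht (h1.le.trans hsl) (h1.le.trans htl) α hα'
          (h2.trans_lt hc)
    · rw [lam_limit hlim]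
      refine ⟨hα, ?_⟩
      have hcs : cut s b ∈ level (fat κ (br μ)) b := ⟨cut_mem_fat hs b, cut_len hsl⟩
      have hct : cut t b ∈ level (fat κ (br μ)) b := ⟨cut_mem_fat ht b, cut_len htl⟩
      obtain ⟨hF1, hF2⟩ := hF b (cut s b) (cut t b) hbκ hlim hcs hct
      rcases hF2 α hα with h1 | ⟨d, hd, hαd, hok⟩
      · rw [cut_fn hα, cut_fn hα] at h1
        exact h1
      · have hdb := hF1 d hd
        have h2 : colF G w d s t ≤ colF G w b s t := by
          refine colF_le G w ?_ hdb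
          simp only [hG, if_pos hlim]
          exact hd
        obtain ⟨h3, h4⟩ := IH d hdb (hdb.trans hbκ) s hs t ht (hdb.le.trans hsl)
          (hdb.le.trans htl) α hαd (h2.trans_lt hc)
        rcases hok with rfl | ⟨hdl, h5, h6⟩
        · rw [lam_succ] at h3
          exact absurd (h3.trans_le (lam_le α)) (lt_irrefl _)
        · rw [lam_limit hdl] at h4
          rw [cut_cut hsl hdb.le] at h5
          rw [cut_cut htl hdb.le] at h6
          rcases h4 with h4 | h4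
          · exact Or.inl (h6 h4)
          · exact Or.inr (h5 h4)
  refine ⟨colF G w, fun α β hαβ hβ s t hs ht => ?_⟩
  refine ⟨fun x y => x ∈ S α (cut (t y) (lam β)), fun x y => y ∈ S α (cut (s x) (lam β)),
    ?_, ?_, ?_⟩
  · intro x hx y hy hxy
    have h1 := claim β hβ (s x) (hs x hx).1 (t y) (ht y hy).1 (hs x hx).2.1 (ht y hy).2.1 α hαβ
      (by rw [(hs x hx).2.2, (ht y hy).2.2]; exact hxy)
    rw [(hs x hx).2.2, (ht y hy).2.2] at h1
    exact h1.2
  · intro y hy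
    exact (Cardinal.mk_le_mk_of_subset fun x hx => hx.2).trans (h.small α (cut (t y) (lam β)))
  · intro x hx
    exact (Cardinal.mk_le_mk_of_subset fun y hy => hy.2).trans (h.small α (cut (s x) (lam β)))

/-! ### A2 -/

theorem succ_succ_le (h : Sys κ μ S) {α α' : Ordinal.{u}} (hα : α < α') :
    Order.succ (Order.succ (μ α)) ≤ μ α' :=
  (Order.succ_le_succ (Order.succ_le_of_lt (Cardinal.cantor _))).trans (h.grow _ _ hα)

theorem br_le (h : Sys κ μ S) {α α' : Ordinal.{u}} (hα : α < α') :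
    br μ α ≤ (μ α').ord :=
  Cardinal.ord_le_ord.2 (succ_succ_le h hα)

theorem br_lt (h : Sys κ μ S) (hκ : ℵ₀ ≤ κ) {α : Ordinal.{u}} (hα : α < κ.ord) :
    br μ α < κ.ord :=
  (br_le h (Order.lt_add_one_iff.2 (le_refl α))).trans_lt
    (Cardinal.ord_lt_ord.2 (h.lt _ (add_one_lt_ord hκ hα)))

theorem one_lt_br (h : Sys κ μ S) (α : Ordinal.{u}) : 1 < br μ α := by
  unfold br
  rw [Cardinal.lt_ord]
  have h1 : (1 : Ordinal.{u}).card = 1 := by simp
  rw [h1]
  exact Cardinal.one_lt_aleph0.trans_le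
    ((h.inf α).trans ((Order.le_succ _).trans (Order.le_succ _)))

theorem regular (h : Sys κ μ S) (hκ : κ.IsInaccessible) : IsRegularTree κ (fat κ (br μ)) :=
  fat_regular hκ (fun _ hβ => br_lt h hκ.aleph0_lt.le hβ) (one_lt_br h) fun β hβ =>
    ⟨μ β, h.lt β hβ, h.inf β, h.card β, fun _ hδ => br_le h hδ⟩

/-- The colouring is unbounded above a level of a pair of strong subtrees. -/
theorem exists_unbounded (h : Sys κ μ S) :
    ∃ c : Ordinal.{u} → Node.{u} → Node.{u} → ℕ, ∀ α β, α < β → β < κ.ord →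
      ∀ s t : Ordinal.{u} → Node.{u},
      (∀ x ∈ Iio (br μ α), s x ∈ fat κ (br μ) ∧ (s x).len = β ∧ (s x).fn α = x) →
      (∀ x ∈ Iio (br μ α), t x ∈ fat κ (br μ) ∧ (t x).len = β ∧ (t x).fn α = x) →
      ∃ B : Set Ordinal.{u}, #B ≤ Cardinal.lift.{u + 1} (μ α) ∧
        ∀ x ∈ Iio (br μ α), x ∉ B → ∀ k : ℕ, ∃ y ∈ Iio (br μ α), k < c β (s x) (t y) := by
  classical
  have hw : ∀ α : Ordinal.{u}, ∃ w : Ordinal.{u} → ℕ,
      ∀ k, Cardinal.lift.{u + 1} (Order.succ (Order.succ (μ α))) ≤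
        #{y | y ∈ Iio (br μ α) ∧ k < w y} := fun α =>
    exists_weight _ ((h.inf α).trans ((Order.le_succ _).trans (Order.le_succ _)))
  choose wt hwt using hw
  obtain ⟨c, hc⟩ := pieceA1 κ μ S h wt
  refine ⟨c, fun α β hαβ hβ s t hs ht => ?_⟩
  have h1 := hc α β hαβ hβ s t (fun x hx => ⟨(hs x hx).1, (hs x hx).2.1.ge, (hs x hx).2.2⟩)
    (fun x hx => ⟨(ht x hx).1, (ht x hx).2.1.ge, (ht x hx).2.2⟩)
  have hC : ℵ₀ ≤ Cardinal.lift.{u + 1} (μ α) := by simpa using h.inf α
  obtain ⟨B, hB, hB2⟩ := h1.exists_good hC (wt α) (by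
    intro k
    refine lt_of_lt_of_le ?_ (hwt α k)
    rw [← Cardinal.lift_succ, Cardinal.lift_lt]
    exact Order.lt_succ _)
  refine ⟨B, hB, fun x hx hxB k => ?_⟩
  obtain ⟨y, hy, hky, hn⟩ := hB2 x hx hxB k
  exact ⟨y, hy, hky.trans_le ((le_max_right _ _).trans (not_lt.1 hn))⟩

theorem exists_not_mem {α : Ordinal.{u}} {B : Set Ordinal.{u}}
    (hB : #B ≤ Cardinal.lift.{u + 1} (μ α)) : ∃ x ∈ Iio (br μ α), x ∉ B := by
  by_contra hc
  push Not at hc
  have h1 := (Cardinal.mk_le_mk_of_subset (show Iio (br μ α) ⊆ B from hc)).trans hB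
  rw [Cardinal.mk_Iio_ordinal, Cardinal.lift_le, br, Cardinal.card_ord] at h1
  exact absurd h1 (not_le.2 ((Order.lt_succ _).trans (Order.lt_succ _)))

theorem not_HL_two (h : Sys κ μ S) (hκ : κ.IsInaccessible)
    {d : ℕ} (hd : 2 ≤ d) {σ : Cardinal.{u}} (hσ : ℵ₀ ≤ σ) : ¬ HL d σ κ := by
  classical
  intro H
  have hκ0 : ℵ₀ ≤ κ := hκ.aleph0_lt.le
  obtain ⟨c, hc⟩ := exists_unbounded h
  set i0 : Fin d := ⟨0, by omega⟩ with hi0
  set i1 : Fin d := ⟨1, by omega⟩ with hi1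
  have h01 : i0 ≠ i1 := by simp [hi0, hi1, Fin.ext_iff]
  have hω : ω ≤ σ.ord := by
    rw [← Cardinal.ord_aleph0]
    exact Cardinal.ord_le_ord.2 hσ
  obtain ⟨A, hA, T', hT', j, hj⟩ := H (fun _ => fat κ (br μ)) (fun _ => regular h hκ)
    (fun x => ((c (x i0).len (x i0) (x i1) : ℕ) : Ordinal.{u}))
    (fun x => (Ordinal.natCast_lt_omega0 _).trans_le hω)
  obtain ⟨α, hαA, -⟩ := hA.2 0 (ord_pos' hκ0)
  have hακ := hA.1 α hαA
  obtain ⟨β, hβA, hβ⟩ := hA.2 (α + 1) (add_one_lt_ord hκ0 hακ)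
  have hβκ := hA.1 β hβA
  have hαβ : α < β := (Order.lt_add_one_iff.2 le_rfl).trans_le hβ
  obtain ⟨s, hs⟩ := exists_family hκ0 (hT' i0) hαA hαβ hβκ
  obtain ⟨t, ht⟩ := exists_family hκ0 (hT' i1) hαA hαβ hβκ
  obtain ⟨B, hB, hB2⟩ := hc α β hαβ hβκ s t
    (fun x hx => ⟨(hT' i0).sub (hs x hx).1, (hs x hx).2⟩)
    (fun x hx => ⟨(hT' i1).sub (ht x hx).1, (ht x hx).2⟩)
  obtain ⟨x, hx, hxB⟩ := exists_not_mem hB
  have hne' : ∀ k : Fin d, (level (T' k) β).Nonempty :=
    fun k => (hT' k).level_nonempty β hβκ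
  have key : ∀ y ∈ Iio (br μ α), ((c β (s x) (t y) : ℕ) : Ordinal.{u}) = j := by
    intro y hy
    have h1 := hj β hβA
      (Function.update (Function.update (fun k => (hne' k).some) i0 (s x)) i1 (t y)) (by
      intro k
      rcases eq_or_ne k i1 with rfl | hk
      · rw [Function.update_self]; exact ⟨(ht y hy).1, (ht y hy).2.1⟩
      · rw [Function.update_of_ne hk]
        rcases eq_or_ne k i0 with rfl | hk0
        · rw [Function.update_self]; exact ⟨(hs x hx).1, (hs x hx).2.1⟩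
        · rw [Function.update_of_ne hk0]; exact (hne' k).some_mem)
    simp only [Function.update_self, Function.update_of_ne h01, (hs x hx).2.1] at h1
    exact h1
  obtain ⟨y0, hy0, -⟩ := hB2 x hx hxB 0
  obtain ⟨y1, hy1, hlt⟩ := hB2 x hx hxB (c β (s x) (t y0))
  have h3 := (key y0 hy0).trans (key y1 hy1).symm
  exact absurd (Nat.cast_injective h3) hlt.ne

theorem not_HL_three (h : Sys κ μ S) (hκ : κ.IsInaccessible)
    {d : ℕ} (hd : 3 ≤ d) {σ : Cardinal.{u}} (hσ : 2 ≤ σ) : ¬ HL d σ κ := by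
  classical
  intro H
  have hκ0 : ℵ₀ ≤ κ := hκ.aleph0_lt.le
  obtain ⟨c, hc⟩ := exists_unbounded h
  set i0 : Fin d := ⟨0, by omega⟩ with hi0
  set i1 : Fin d := ⟨1, by omega⟩ with hi1
  set i2 : Fin d := ⟨2, by omega⟩ with hi2
  have h01 : i0 ≠ i1 := by simp [hi0, hi1, Fin.ext_iff]
  have h02 : i0 ≠ i2 := by simp [hi0, hi2, Fin.ext_iff]
  have h12 : i1 ≠ i2 := by simp [hi1, hi2, Fin.ext_iff]
  have hσ2 : (2 : Ordinal.{u}) ≤ σ.ord := by
    have h3 := Cardinal.ord_le_ord.2 hσ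
    have h4 : (2 : Cardinal.{u}).ord = 2 := by simp
    rwa [h4] at h3
  obtain ⟨A, hA, T', hT', j, hj⟩ := H (fun _ => fat κ (br μ)) (fun _ => regular h hκ)
    (fun x => if c (x i0).len (x i0) (x i2) ≤ c (x i0).len (x i0) (x i1) then 0 else 1)
    (fun x => by
      split_ifs
      · exact zero_lt_two.trans_le hσ2
      · exact one_lt_two.trans_le hσ2)
  obtain ⟨α, hαA, -⟩ := hA.2 0 (ord_pos' hκ0)
  have hακ := hA.1 α hαA
  obtain ⟨β, hβA, hβ⟩ := hA.2 (α + 1) (add_one_lt_ord hκ0 hακ)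
  have hβκ := hA.1 β hβA
  have hαβ : α < β := (Order.lt_add_one_iff.2 le_rfl).trans_le hβ
  obtain ⟨s, hs⟩ := exists_family hκ0 (hT' i0) hαA hαβ hβκ
  obtain ⟨t, ht⟩ := exists_family hκ0 (hT' i1) hαA hαβ hβκ
  obtain ⟨r, hr⟩ := exists_family hκ0 (hT' i2) hαA hαβ hβκ
  obtain ⟨B, hB, hB2⟩ := hc α β hαβ hβκ s t
    (fun x hx => ⟨(hT' i0).sub (hs x hx).1, (hs x hx).2⟩)
    (fun x hx => ⟨(hT' i1).sub (ht x hx).1, (ht x hx).2⟩)
  obtain ⟨B', hB', hB2'⟩ := hc α β hαβ hβκ s r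
    (fun x hx => ⟨(hT' i0).sub (hs x hx).1, (hs x hx).2⟩)
    (fun x hx => ⟨(hT' i2).sub (hr x hx).1, (hr x hx).2⟩)
  have hC : ℵ₀ ≤ Cardinal.lift.{u + 1} (μ α) := by simpa using h.inf α
  obtain ⟨x, hx, hxB⟩ := exists_not_mem (mk_union_le_of hC hB hB')
  have hne' : ∀ k : Fin d, (level (T' k) β).Nonempty :=
    fun k => (hT' k).level_nonempty β hβκ
  have key : ∀ y ∈ Iio (br μ α), ∀ z ∈ Iio (br μ α),
      (if c β (s x) (r z) ≤ c β (s x) (t y) then (0 : Ordinal.{u}) else 1) = j := by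
    intro y hy z hz
    have h1 := hj β hβA
      (Function.update (Function.update (Function.update (fun k => (hne' k).some) i0 (s x))
        i1 (t y)) i2 (r z)) (by
      intro k
      rcases eq_or_ne k i2 with rfl | hk
      · rw [Function.update_self]; exact ⟨(hr z hz).1, (hr z hz).2.1⟩
      · rw [Function.update_of_ne hk]
        rcases eq_or_ne k i1 with rfl | hk
        · rw [Function.update_self]; exact ⟨(ht y hy).1, (ht y hy).2.1⟩
        · rw [Function.update_of_ne hk]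
          rcases eq_or_ne k i0 with rfl | hk0
          · rw [Function.update_self]; exact ⟨(hs x hx).1, (hs x hx).2.1⟩
          · rw [Function.update_of_ne hk0]; exact (hne' k).some_mem)
    simp only [Function.update_self, Function.update_of_ne h01, Function.update_of_ne h02,
      Function.update_of_ne h12, (hs x hx).2.1] at h1
    exact h1
  have hxB1 : x ∉ B := fun h' => hxB (Or.inl h')
  have hxB2 : x ∉ B' := fun h' => hxB (Or.inr h')
  obtain ⟨y0, hy0, -⟩ := hB2 x hx hxB1 0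
  obtain ⟨z1, hz1, hlt1⟩ := hB2' x hx hxB2 (c β (s x) (t y0))
  have h1 := key y0 hy0 z1 hz1
  rw [if_neg (not_le.2 hlt1)] at h1
  obtain ⟨y1, hy1, hlt2⟩ := hB2 x hx hxB1 (c β (s x) (r z1))
  have h2 := key y1 hy1 z1 hz1
  rw [if_pos hlt2.le] at h2
  exact zero_ne_one (h2.trans h1.symm)

theorem pieceA2 : PieceA2.{u} := by
  intro κ μ S h hκ d σ hd
  rcases hd with ⟨h1, h2⟩ | ⟨h1, h2⟩
  · exact not_HL_two h hκ h1 h2
  · exact not_HL_three h hκ h1 h2

end Pool.Agent.W2helper17.HLM
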